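import Pool.Agent.H926_Doyle.Geom

/-!
# Locally univalent circle packings of the hexagonal complex are Doyle spirals

Vertices of the hexagonal complex are pairs `(n, m)` of integers, corresponding to the lattice
points `n + m ω` with `ω = exp (i π / 3)`.

Proof: the ring lemma bounds the ratios of the radii of neighbouring circles.  Hence for a lattice
direction `e` the function `log R (v + e) - log R v` is bounded, and it solves a linear symmetric
equation with positive bounded conductances on the (recurrent) triangular lattice, so it is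
constant by Liouville's theorem.
-/

open Finset

namespace Pool.Agent.Results.MP_5725d1_gt.DoyleSpirals

/-- The six neighbours of the vertex `(0, 0)` in counterclockwise cyclic order:
`1, ω, ω - 1, -1, -ω, 1 - ω`. -/
def nbr : Fin 6 → ℤ × ℤ := ![(1, 0), (0, 1), (-1, 1), (-1, 0), (0, -1), (1, -1)]

/-- The angle at the first vertex of the Euclidean triangle whose vertices are the centres of three
mutually externally tangent circles with radii `r`, `s`, `t` (law of cosines). -/
noncomputable def faceAngle (r s t : ℝ) : ℝ :=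
  Real.arccos (((r + s) ^ 2 + (r + t) ^ 2 - (s + t) ^ 2) / (2 * (r + s) * (r + t)))

/-- The angle sum of the label `R` at the vertex `v`. -/
noncomputable def angleSum (R : ℤ × ℤ → ℝ) (v : ℤ × ℤ) : ℝ :=
  ∑ k : Fin 6, faceAngle (R v) (R (v + nbr k)) (R (v + nbr (k + 1)))

/-- Packing labels: positive labels all of whose angle sums are `2 π`. -/
structure IsPackingLabel (R : ℤ × ℤ → ℝ) : Prop where
  pos : ∀ v, 0 < R v
  angle_sum : ∀ v, angleSum R v = 2 * Real.pi

/-- A circle packing for the hexagonal complex: circles with centres `z v` and radii `R v`, where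
`R` is a packing label, circles of adjacent vertices are externally tangent, and all faces are
positively oriented. -/
structure IsCirclePacking (R : ℤ × ℤ → ℝ) (z : ℤ × ℤ → ℂ) : Prop where
  label : IsPackingLabel R
  tangent : ∀ v k, dist (z v) (z (v + nbr k)) = R v + R (v + nbr k)
  oriented : ∀ v k, 0 < ((z (v + nbr (k + 1)) - z v) / (z (v + nbr k) - z v)).im

/-- The seven vertices of the flower at `v`. -/
def flower (v : ℤ × ℤ) : Set (ℤ × ℤ) := insert v (Set.range fun k : Fin 6 => v + nbr k)

/-- Local univalence: the seven discs of every flower have pairwise disjoint interiors. -/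
def LocallyUnivalent (R : ℤ × ℤ → ℝ) (z : ℤ × ℤ → ℂ) : Prop :=
  ∀ v, (flower v).PairwiseDisjoint fun x => Metric.ball (z x) (R x)

open Pool.Agent.H926Doyle

theorem nbr_eq : nbr = nb := rfl

theorem nbr_inj : Function.Injective nbr := by decide

theorem nbr_opp (v : ℤ × ℤ) (k : Fin 6) : v + nbr k + nbr (k + 3) = v := by
  rw [add_assoc]
  have : ∀ k : Fin 6, nbr k + nbr (k + 3) = 0 := by decide
  rw [this, add_zero]

/-- The ratios of the radii in a flower form an abstract flower. -/
theorem flower_fl {R : ℤ × ℤ → ℝ} {z : ℤ × ℤ → ℂ} (hc : IsCirclePacking R z)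
    (hu : LocallyUnivalent R z) (v : ℤ × ℤ) (i : Fin 6) :
    Fl (fun j : ℕ => R (v + nbr (i + cy j)) / R v) := by
  have hpos := hc.label.pos
  have hfa : ∀ k l : Fin 6, faceAngle (R v) (R (v + nbr k)) (R (v + nbr l))
      = aa (R (v + nbr k) / R v) (R (v + nbr l) / R v) := fun k l =>
    arccos_eq_aa _ _ _ (hpos _) (hpos _) (hpos _)
  refine ⟨fun k => div_pos (hpos _) (hpos _), ?_, ?_⟩
  · intro k hk2 hk5
    set p : ℕ → ℂ := fun j => z (v + nbr (i + cy j)) - z v with hp
    have hn : ∀ j, ‖p j‖ = R v + R (v + nbr (i + cy j)) := by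
      intro j
      rw [hp]
      simp only
      rw [← dist_eq_norm, dist_comm]
      exact hc.tangent _ _
    have hp0 : ∀ j, p j ≠ 0 := by
      intro j h
      have := hn j
      rw [h, norm_zero] at this
      have h1 := hpos v
      have h2 := hpos (v + nbr (i + cy j))
      linarith
    have hidx : ∀ j, v + nbr (i + cy (j + 1)) = v + nbr (i + cy j + 1) := by
      intro j
      rw [cy_succ, add_assoc]
    have hdd : ∀ j, ‖p j - p (j + 1)‖
        = R (v + nbr (i + cy j)) + R (v + nbr (i + cy (j + 1))) := by
      intro j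
      have e : p j - p (j + 1) = z (v + nbr (i + cy j)) - z (v + nbr (i + cy (j + 1))) := by
        rw [hp]; simp only; ring
      rw [e, ← dist_eq_norm]
      have h1 : v + nbr (i + cy (j + 1)) = v + nbr (i + cy j) + nbr (i + cy j + 2) := by
        have : ∀ a : Fin 6, nbr (a + 1) = nbr a + nbr (a + 2) := by decide
        rw [hidx, this]
        exact (add_assoc _ _ _).symm
      rw [h1]
      exact hc.tangent _ _
    set α : ℕ → ℝ := fun j => aa (R (v + nbr (i + cy j)) / R v) (R (v + nbr (i + cy (j + 1))) / R v)
      with hα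
    have hstep : ∀ j, p (j + 1) / p j = ((‖p (j + 1)‖ / ‖p j‖ : ℝ) : ℂ) *
        Complex.exp ((α j : ℝ) * Complex.I) := by
      intro j
      have h1 := hpos v
      have h2 := hpos (v + nbr (i + cy j))
      have h3 := hpos (v + nbr (i + cy (j + 1)))
      have ho : 0 < (p (j + 1) / p j).im := by
        have := hc.oriented v (i + cy j)
        rw [← hidx] at this
        exact this
      have := rot_step (p j) (p (j + 1)) _ _ _ (by linarith) (by linarith) (hn j) (hn (j + 1))
        (hdd j) ho
      rw [hn, hn]
      have hr := arccos_eq_aa _ _ _ h1 h2 h3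
      rw [hr] at this
      exact this
    have hch := rot_chain p α hp0 hstep k
    rw [hn, hn] at hch
    have h1 := hpos v
    have h2 := hpos (v + nbr (i + cy 0))
    have h3 := hpos (v + nbr (i + cy k))
    -- disjointness of petals `0` and `k`
    have hne : v + nbr (i + cy 0) ≠ v + nbr (i + cy k) := by
      intro h
      have h4 := nbr_inj (add_left_cancel h)
      have h5 : cy 0 = cy k := add_left_cancel h4
      have h6 : ∀ k : ℕ, 2 ≤ k → k ≤ 5 → cy 0 ≠ cy k := by
        intro k hk2 hk5
        interval_cases k <;> decide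
      exact h6 k hk2 hk5 h5
    have hdis := hu v (Set.mem_insert_of_mem _ ⟨i + cy 0, rfl⟩)
      (Set.mem_insert_of_mem _ ⟨i + cy k, rfl⟩) hne
    have hD : R (v + nbr (i + cy 0)) + R (v + nbr (i + cy k)) ≤ ‖p 0 - p k‖ := by
      have e : p 0 - p k = z (v + nbr (i + cy 0)) - z (v + nbr (i + cy k)) := by
        rw [hp]; simp only; ring
      rw [e, ← dist_eq_norm]
      exact (disjoint_ball_ball_iff h2 h3).mp hdis
    have hα0 : ∀ j, 0 ≤ α j := fun j =>
      (aa_pos (div_pos (hpos _) (hpos _)) (div_pos (hpos _) (hpos _))).le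
    have hfin := dist_chain (p 0) (p k) _ _ (∑ j ∈ range k, α j)
      (R (v + nbr (i + cy 0)) + R (v + nbr (i + cy k))) (by linarith) (by linarith) (hn 0) (hn k)
      (sum_nonneg fun j _ => hα0 j) hch (by linarith) hD (by linarith)
      (by rw [abs_le]; constructor <;> linarith)
    rw [arccos_eq_aa _ _ _ h1 h2 h3] at hfin
    exact hfin
  · unfold ss
    have h1 : ∀ j : ℕ, aa (R (v + nbr (i + cy j)) / R v) (R (v + nbr (i + cy (j + 1))) / R v)
        = faceAngle (R v) (R (v + nbr (i + cy j))) (R (v + nbr (i + cy j + 1))) := by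
      intro j
      rw [hfa, cy_succ, add_assoc]
    simp only [h1]
    rw [Finset.sum_range (fun j : ℕ => faceAngle (R v) (R (v + nbr (i + cy j)))
      (R (v + nbr (i + cy j + 1))))]
    simp only [cy_val]
    rw [← hc.label.angle_sum v]
    unfold angleSum
    exact Fintype.sum_equiv (Equiv.addLeft i) _ _ (fun k => rfl)

/-- **Locally univalent hexagonal circle packings are Doyle spirals (or regular).**  The label of
every locally univalent circle packing for the hexagonal complex in the plane has the form
`c a^n b^m` with positive constants `a`, `b`, `c`. -/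
theorem result : ∀ (R : ℤ × ℤ → ℝ) (z : ℤ × ℤ → ℂ), IsCirclePacking R z → LocallyUnivalent R z →
    ∃ a b c : ℝ, 0 < a ∧ 0 < b ∧ 0 < c ∧ ∀ n m : ℤ, R (n, m) = c * a ^ n * b ^ m := by
  intro R z hc hu
  have hpos := hc.label.pos
  obtain ⟨ε, hε, hring⟩ := ring_lemma
  have h1 : ∀ v k, ε ≤ R (v + nbr k) / R v := fun v k =>
    hring (fun k => R (v + nbr k) / R v) (fun i => flower_fl hc hu v i) k
  set u : ℤ × ℤ → ℝ := fun v => Real.log (R v) with hudef
  have h2 : ∀ v k, Real.log ε ≤ u (v + nb k) - u v := by
    intro v k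
    rw [hudef]
    simp only
    rw [← Real.log_div (hpos _).ne' (hpos _).ne']
    exact Real.log_le_log hε (h1 v k)
  have hM : ∀ v k, |u v - u (v + nb k)| ≤ - Real.log ε := by
    intro v k
    have a1 := h2 v k
    have a2 := h2 (v + nb k) (k + 3)
    have a3 : v + nb k + nb (k + 3) = v := nbr_opp v k
    rw [a3] at a2
    rw [abs_le]
    constructor <;> linarith
  have hθ : ∀ v, angSum u v = 2 * Real.pi := by
    intro v
    rw [← hc.label.angle_sum v]
    unfold angSum angleSum faceAngle
    refine Finset.sum_congr rfl fun k _ => ?_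
    rw [hudef]
    simp only
    rw [ang_eq_aa _ _ _ (hpos _) (hpos _) (hpos _), arccos_eq_aa _ _ _ (hpos _) (hpos _) (hpos _)]
    rfl
  obtain ⟨α, β, haff⟩ := affine_of_bounded u _ hM hθ
  refine ⟨Real.exp α, Real.exp β, R (0, 0), Real.exp_pos _, Real.exp_pos _, hpos _, fun n m => ?_⟩
  have e1 : R (n, m) = Real.exp (u (n, m)) := by
    rw [hudef]; simp only; rw [Real.exp_log (hpos _)]
  have e2 : R (0, 0) = Real.exp (u (0, 0)) := by
    rw [hudef]; simp only; rw [Real.exp_log (hpos _)]
  rw [e1, haff n m, Real.exp_add, Real.exp_add, ← e2, mul_comm (n : ℝ) α, mul_comm (m : ℝ) β,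
    Real.exp_mul, Real.exp_mul, Real.rpow_intCast, Real.rpow_intCast]

end Pool.Agent.Results.MP_5725d1_gt.DoyleSpirals
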